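import Mathlib
import Pool.Agent.H864R3.Final3

set_option autoImplicit false

namespace Pool.Agent.Results.MP_2e24f1_ag.DegreeThree

open scoped ComplexOrder
open H864R3

/-- **Griffiths' conjecture in weighted degree `3`, for bundles of every rank over manifolds of every
dimension, pointwise.** `Θ i j` is the coefficient (an endomorphism of the fibre `ℂ^r`) of
`dz_i ∧ dz̄_j` in the Chern curvature at a point of a complex manifold of dimension `n`, and `h` is
the Hermitian metric of the fibre. `S111`, `S21`, `S3` are the coefficients, on the span of the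
tangent vectors `v 0, v 1, v 2`, of the Schur forms `S_{(1,1,1)} = c_1^3 - 2 c_1 c_2 + c_3`,
`S_{(2,1)} = c_1 c_2 - c_3` and `S_{(3)} = c_3`.

* Semipositive case: every combination of the three Schur forms with nonnegative coefficients is
  nonnegative on every triple of tangent vectors.
* Positive case: on linearly independent vectors the three Schur forms are strictly positive, as
  soon as the partition lies in `Λ(3, r)`. -/
theorem result {n r : ℕ} (h : Matrix (Fin r) (Fin r) ℂ) (hh : h.PosDef)
    (Θ : Fin n → Fin n → Matrix (Fin r) (Fin r) ℂ) (v : Fin 3 → Fin n → ℂ) :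
    (GriffithsSemipos h Θ → ∀ a b c : ℝ, 0 ≤ a → 0 ≤ b → 0 ≤ c →
      0 ≤ (a : ℂ) * S111 Θ v + (b : ℂ) * S21 Θ v + (c : ℂ) * S3 Θ v) ∧
    (GriffithsPos h Θ → LinearIndependent ℂ v →
      (1 ≤ r → 0 < S111 Θ v) ∧ (2 ≤ r → 0 < S21 Θ v) ∧ (3 ≤ r → 0 < S3 Θ v)) := by
  constructor
  · intro hΘ a b c ha hb hc
    obtain ⟨h1, h2, h3⟩ := degree3_nonneg h hh Θ hΘ v
    have ha' : (0 : ℂ) ≤ (a : ℂ) := by exact_mod_cast ha
    have hb' : (0 : ℂ) ≤ (b : ℂ) := by exact_mod_cast hb
    have hc' : (0 : ℂ) ≤ (c : ℂ) := by exact_mod_cast hc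
    exact add_nonneg (add_nonneg (mul_nonneg ha' h1) (mul_nonneg hb' h2)) (mul_nonneg hc' h3)
  · intro hΘ hv
    exact degree3_pos h hh Θ hΘ v hv

end Pool.Agent.Results.MP_2e24f1_ag.DegreeThree
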