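import Mathlib
import Pool.Agent.H864D.Hook6

set_option autoImplicit false

namespace Pool.Agent.Results.MP_2e24f1_ag.HookForms

open scoped ComplexOrder
open H864D

/-- **The Schur forms of the hooks `(3,1,…,1)` of a Griffiths semipositive bundle, in every degree.**
`Θ i j` is the coefficient of `dz_i ∧ dz̄_j` in the Chern curvature at a point, written in a unitary
frame of the fibre `ℂ^r`. For every `b`, the Schur form of the hook with one row of length `3` and
`b` rows of length `1` (weighted degree `k = b + 3`) is nonnegative on every `k`-tuple of tangent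
vectors. -/
theorem result {n r k b : ℕ} (hr : 3 ≤ r) (e : Fin k ≃ Fin 3 ⊕ Fin b)
    (Θ : Fin n → Fin n → Matrix (Fin r) (Fin r) ℂ) (hΘ : GriffithsSemipositive Θ)
    (v : Fin k → Fin n → ℂ) : 0 ≤ hookForm (by norm_num) hr e Θ v :=
  hook3_nonneg hr e Θ hΘ v

end Pool.Agent.Results.MP_2e24f1_ag.HookForms
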